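import Pool.Agent.NMD.IGM
import Pool.Agent.NMD.MAIN2
import Pool.Agent.NMD.SDB
import Pool.Agent.NMD.PN
import Pool.Agent.NMD.FIN
import Pool.Agent.NMD.LOC
import Pool.Agent.NMD.DNS
import Pool.Agent.NMD.GEN
import Pool.Agent.NMD.GP
import Pool.Agent.NMD.GPV
import Pool.Agent.NMD.LVL
import Pool.Agent.NMD.DEC2
import Pool.Agent.NMD.CYL
import Pool.Agent.NMD.SUM
import Pool.Agent.NMD.PROD
import Pool.Agent.NMD.LIM
import Pool.Agent.NMD.DI
import Pool.Agent.NMD.CE1
import Pool.Agent.NMD.CE2
import Pool.Agent.NMD.DISC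
import Pool.Agent.NMD.LIND
import Pool.Agent.NMD.DCE
import Pool.Agent.NMD.RES

/-!
# Ind and dim of normal Moore spaces that are locally almost metrizable

Let `X` be a normal Moore space that is a countable union of closed subspaces `C k` which are locally of the
form `Y ∪ E ∪ D 0 ∪ D 1 ∪ …`, where the topology of `Y` has a base of preimages of open sets under countably
many continuous maps into normal Moore spaces that are countable unions of closed subspaces, each a finite
union of metrizable subspaces; `E` has fewer than continuum many points; and the `D j` are closed and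
`Ind (D j) ≤ m`. Then `dim X ≤ Ind X ≤ dim X + m`. For `m = 0` this is `Ind X = dim X`.
-/

namespace Pool.Agent.Results.MP_dfc59c_gt.DimGap

open NMD Set

universe u

theorem main2 : MainStatement2.{u} :=
  t_MAIN2 t_SDB t_PN (t_FIN t_LOC t_DNS) t_BR (t_GEN (t_GP t_GPV)) t_LVL
    (t_DEC2 t_CYL t_SUM t_UM t_PROD t_LIM) t_DI

theorem result (X : Type u) [TopologicalSpace X] [NormalSpace X] (hX : IsMoore X) (m : ℕ)
    (C : ℕ → Set X) (hC : ∀ k, IsClosed (C k)) (hU : ⋃ k, C k = univ)
    (hG : ∀ k, ∀ x : C k, ∃ O : Set (C k), IsOpen O ∧ x ∈ O ∧ GoodM m O) :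
    covDim X ≤ Ind X ∧ Ind X ≤ covDim X + m :=
  t_IGM t_PN t_DI t_CE1 t_CE2 (t_LIND t_DISC) t_DCE main2 X hX m C hC hU hG

end Pool.Agent.Results.MP_dfc59c_gt.DimGap
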