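import Pool.Agent.NMK.Final

/-!
# Q1 is equivalent to the non-existence of everywhere bad normal Moore spaces

If some normal Moore space has `Ind ≠ dim` then there are a number `n ≥ 1`, a value `N` (`n + 1` or `∞`) and a
nonempty normal Moore space `F` such that every nonempty open subspace of `F` has covering dimension `n` and
large inductive dimension `N`, every closed subspace `K` satisfies `Ind K = dim K` or `dim K = n`, `Ind K = N`,
every nonempty open set contains two disjoint closed sets all of whose partitions in `F` have covering dimension
`n`, every normal Moore space of covering dimension less than `n` satisfies `Ind = dim`, and `N ≤ n + m` whenever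
a nonempty open subspace is a countable union of closed sets that are locally `GoodM m`.

In particular Q1 holds if every nonempty finite-dimensional normal Moore space has a nonempty open subset `O`
such that any two disjoint closed sets contained in `O` have a partition of smaller covering dimension.
-/

namespace Pool.Agent.Results.MP_dfc59c_gt.EverywhereBad

universe u

theorem result : NMK.Q1.{u} ↔
    ¬ ∃ (n : ℕ) (N : WithTop ℤ) (F : Type u) (_ : TopologicalSpace F), NMK.EverywhereBad n N F :=
  NMK.q1_iff_not_everywhereBad

end Pool.Agent.Results.MP_dfc59c_gt.EverywhereBad
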